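import Pool.Agent.H.MP_47f0a1_an.FinalB

/-!
# Free absorption of `C([0,1]^n)` by the infinite reduced free power of `C([0,1])`

For every `n ≥ 1` the reduced free product of `C([0,1]^n)` (Lebesgue measure) and of
`B = C([0,1])^{*_r ∞}` (free product state) is isomorphic to `B` as a C*-algebra.
The definitions (`H47.IsFree`, `H47.IsRFP`, `H47.FreeInf`, `H47.FreeProd`) are in
`Pool/Agent/H/MP_47f0a1_an/Defs.lean`.
-/

open MeasureTheory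

namespace Pool.Agent.Results.MP_47f0a1_an.FreeAbsorption

open H47

universe u v

theorem result :
    (∃ (B : Type) (_ : CStarAlgebra B) (τ : B →ₗ[ℂ] ℂ)
      (ι : ℕ → C(unitInterval, ℂ) →⋆ₐ[ℂ] B), FreeInf B τ ι) ∧
    ∀ (n : ℕ), 1 ≤ n → ∀ (B : Type u) [CStarAlgebra B] (τ : B →ₗ[ℂ] ℂ)
      (ι : ℕ → C(unitInterval, ℂ) →⋆ₐ[ℂ] B), FreeInf B τ ι →
      (∃ (P : Type) (_ : CStarAlgebra P) (σ : P →ₗ[ℂ] ℂ)
        (a : C(Fin n → unitInterval, ℂ) →⋆ₐ[ℂ] P) (b : B →⋆ₐ[ℂ] P), FreeProd n τ P σ a b) ∧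
      ∀ (P : Type v) [CStarAlgebra P] (σ : P →ₗ[ℂ] ℂ)
        (a : C(Fin n → unitInterval, ℂ) →⋆ₐ[ℂ] P) (b : B →⋆ₐ[ℂ] P),
        FreeProd n τ P σ a b → Nonempty (P ≃⋆ₐ[ℂ] B) := by
  refine ⟨exists_freeInf, fun n hn B _ τ ι hB => ⟨exists_freeProd n hB, ?_⟩⟩
  intro P _ σ a b hP
  exact absorption n hn hB hP

end Pool.Agent.Results.MP_47f0a1_an.FreeAbsorption
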